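import Mathlib

namespace Pool.Agent.H.MP_618f8d_co

open Finset

variable {α : Type*} [DecidableEq α]

/-- three colours for a fixed point free injection -/
theorem three_col (f : α → α) (hf : Function.Injective f) (U : Finset α)
    (hU : ∀ e ∈ U, f e ≠ e) : ∃ c : α → Fin 3, ∀ e ∈ U, f e ∈ U → c e ≠ c (f e) := by
  classical
  induction U using Finset.induction_on with
  | empty => exact ⟨fun _ => 0, by simp⟩
  | insert a S ha ih =>
    obtain ⟨c, hc⟩ := ih (fun e he => hU e (mem_insert_of_mem he))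
    have key : ∀ x y : Fin 3, ∃ z : Fin 3, z ≠ x ∧ z ≠ y := by decide
    obtain ⟨z, hz1, hz2⟩ := key (c (f a)) (c (if h : ∃ b, f b = a then h.choose else a))
    refine ⟨Function.update c a z, ?_⟩
    intro e he hfe
    have hne := hU e he
    by_cases h1 : e = a
    · subst h1
      rw [Function.update_self, Function.update_of_ne hne]
      exact hz1
    · by_cases h2 : f e = a
      · rw [h2, Function.update_self, Function.update_of_ne h1]
        have hex : ∃ b, f b = a := ⟨e, h2⟩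
        have : hex.choose = e := hf (hex.choose_spec.trans h2.symm)
        rw [dif_pos hex, this] at hz2
        exact hz2.symm
      · rw [Function.update_of_ne h1, Function.update_of_ne h2]
        exact hc e ((mem_insert.1 he).resolve_left h1) ((mem_insert.1 hfe).resolve_left h2)

omit [DecidableEq α] in
theorem sum_pw (U : Finset α) (z : ℝ) : ∑ S ∈ U.powerset, z ^ S.card = (1 + z) ^ U.card := by
  have := Finset.prod_one_add (f := fun _ : α => z) U
  simp only [prod_const] at this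
  exact this.symm

theorem sum_sup (U W : Finset α) (z : ℝ) (hz : 0 ≤ z) :
    ∑ S ∈ U.powerset with W ⊆ S, z ^ S.card ≤ z ^ W.card * (1 + z) ^ U.card := by
  rw [← sum_pw, mul_sum]
  have h1 : ∑ S ∈ U.powerset with W ⊆ S, z ^ S.card
      = ∑ S ∈ U.powerset with W ⊆ S, z ^ W.card * z ^ (S \ W).card := by
    refine sum_congr rfl fun S hS => ?_
    have := (mem_filter.1 hS).2
    rw [← pow_add, card_sdiff_of_subset this]
    congr 1
    have := card_le_card this
    omega
  rw [h1, ← sum_image (f := fun T : Finset α => z ^ W.card * z ^ T.card)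
    (g := fun S => S \ W)]
  · refine sum_le_sum_of_subset_of_nonneg ?_ fun _ _ _ => by positivity
    intro T hT
    obtain ⟨S, hS, rfl⟩ := mem_image.1 hT
    exact mem_powerset.2 (sdiff_subset.trans (mem_powerset.1 (mem_filter.1 hS).1))
  · intro S hS T hT h
    have h1 := (mem_filter.1 (mem_coe.1 hS)).2
    have h2 := (mem_filter.1 (mem_coe.1 hT)).2
    simp only at h
    rw [← sdiff_union_of_subset h1, ← sdiff_union_of_subset h2, h]

theorem one_class (f : α → α) (hf : Function.Injective f) (U V : Finset α) (hVU : V ⊆ U)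
    (hV : ∀ e ∈ V, f e ∉ V) (z : ℝ) (hz : 0 ≤ z) :
    ∑ S ∈ U.powerset, z ^ S.card * 8 ^ #{e ∈ V | e ∈ S ∧ f e ∈ S}
      ≤ (1 + z) ^ U.card * (1 + 7 * z ^ 2) ^ U.card := by
  have h1 : ∀ S : Finset α, (8 : ℝ) ^ #{e ∈ V | e ∈ S ∧ f e ∈ S}
      = ∑ T ∈ V.powerset, if T ∪ T.image f ⊆ S then (7 : ℝ) ^ T.card else 0 := by
    intro S
    rw [show (8 : ℝ) = 1 + 7 by norm_num, ← sum_pw, ← sum_filter]
    refine sum_congr ?_ fun _ _ => rfl
    ext T
    simp only [mem_powerset, mem_filter, union_subset_iff, image_subset_iff]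
    simp only [subset_iff, mem_filter]
    constructor
    · intro h
      exact ⟨fun x hx => (h hx).1, fun x hx => (h hx).2.1, fun x hx => (h hx).2.2⟩
    · rintro ⟨h1, h2, h3⟩ x hx
      exact ⟨h1 hx, h2 hx, h3 x hx⟩
  simp only [h1, mul_sum]
  rw [sum_comm]
  have h2 : ∀ T ∈ V.powerset,
      ∑ S ∈ U.powerset, z ^ S.card * (if T ∪ T.image f ⊆ S then (7 : ℝ) ^ T.card else 0)
        ≤ (1 + z) ^ U.card * (7 * z ^ 2) ^ T.card := by
    intro T hT
    have hT' := mem_powerset.1 hT
    have hc : (T ∪ T.image f).card = 2 * T.card := by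
      rw [card_union_of_disjoint, card_image_of_injective _ hf]
      · ring
      · rw [disjoint_right]
        intro x hx hxT
        obtain ⟨e, he, rfl⟩ := mem_image.1 hx
        exact hV e (hT' he) (hT' hxT)
    have := sum_sup U (T ∪ T.image f) z hz
    rw [hc, sum_filter] at this
    have h3 : ∑ S ∈ U.powerset, z ^ S.card * (if T ∪ T.image f ⊆ S then (7 : ℝ) ^ T.card else 0)
        = 7 ^ T.card * ∑ S ∈ U.powerset, (if T ∪ T.image f ⊆ S then z ^ S.card else 0) := by
      rw [mul_sum]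
      refine sum_congr rfl fun S _ => ?_
      split_ifs <;> ring
    rw [h3]
    calc _ ≤ 7 ^ T.card * (z ^ (2 * T.card) * (1 + z) ^ U.card) := by gcongr
      _ = _ := by rw [mul_pow, ← pow_mul]; ring
  refine (sum_le_sum h2).trans ?_
  rw [← mul_sum, sum_pw]
  gcongr
  nlinarith [sq_nonneg z]

theorem amgm (a b c : ℕ) : (2 : ℝ) ^ (a + b + c) ≤ (8 ^ a + 8 ^ b + 8 ^ c) / 3 := by
  have h : ∀ k : ℕ, (8 : ℝ) ^ k = (2 ^ k) ^ 3 := fun k => by
    rw [← pow_mul, mul_comm, pow_mul]; norm_num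
  rw [h, h, h, pow_add, pow_add]
  have ha : (0 : ℝ) ≤ 2 ^ a := by positivity
  have hb : (0 : ℝ) ≤ 2 ^ b := by positivity
  have hc : (0 : ℝ) ≤ 2 ^ c := by positivity
  generalize (2 : ℝ) ^ a = x at *
  generalize (2 : ℝ) ^ b = y at *
  generalize (2 : ℝ) ^ c = w at *
  nlinarith [mul_nonneg (add_nonneg (add_nonneg ha hb) hc)
    (add_nonneg (add_nonneg (sq_nonneg (x - y)) (sq_nonneg (y - w))) (sq_nonneg (w - x)))]

theorem gen (f : α → α) (hf : Function.Injective f) (U : Finset α)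
    (hU : ∀ e ∈ U, f e ≠ e) (z : ℝ) (hz : 0 ≤ z) :
    ∑ S ∈ U.powerset, z ^ S.card * 2 ^ #{e ∈ S | f e ∈ S}
      ≤ Real.exp (U.card * (z + 7 * z ^ 2)) := by
  obtain ⟨c, hc⟩ := three_col f hf U hU
  set V : Fin 3 → Finset α := fun i => {e ∈ U | c e = i} with hVdef
  have hV : ∀ i, ∀ e ∈ V i, f e ∉ V i := by
    intro i e he hfe
    simp only [hVdef, mem_filter] at he hfe
    exact hc e he.1 hfe.1 (he.2.trans hfe.2.symm)
  have hcard : ∀ S ∈ U.powerset, #{e ∈ S | f e ∈ S} = #{e ∈ V 0 | e ∈ S ∧ f e ∈ S}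
      + #{e ∈ V 1 | e ∈ S ∧ f e ∈ S} + #{e ∈ V 2 | e ∈ S ∧ f e ∈ S} := by
    intro S hS
    have hS' := mem_powerset.1 hS
    rw [card_eq_sum_card_fiberwise (f := c) (t := univ) (fun _ _ => mem_univ _),
      Fin.sum_univ_three]
    have : ∀ i, ({e ∈ ({e ∈ S | f e ∈ S} : Finset α) | c e = i} : Finset α)
        = {e ∈ V i | e ∈ S ∧ f e ∈ S} := by
      intro i
      ext e
      simp only [hVdef, mem_filter]
      constructor
      · rintro ⟨⟨h1, h2⟩, h3⟩
        exact ⟨⟨hS' h1, h3⟩, h1, h2⟩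
      · rintro ⟨⟨_, h3⟩, h1, h2⟩
        exact ⟨⟨h1, h2⟩, h3⟩
    rw [this, this, this]
  have h1 : ∑ S ∈ U.powerset, z ^ S.card * 2 ^ #{e ∈ S | f e ∈ S}
      ≤ ∑ S ∈ U.powerset, (z ^ S.card * 8 ^ #{e ∈ V 0 | e ∈ S ∧ f e ∈ S}
        + z ^ S.card * 8 ^ #{e ∈ V 1 | e ∈ S ∧ f e ∈ S}
        + z ^ S.card * 8 ^ #{e ∈ V 2 | e ∈ S ∧ f e ∈ S}) / 3 := by
    refine sum_le_sum fun S hS => ?_
    rw [hcard S hS]
    refine (mul_le_mul_of_nonneg_left (amgm _ _ _) (by positivity)).trans (le_of_eq ?_)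
    ring
  rw [← sum_div, sum_add_distrib, sum_add_distrib] at h1
  have h0 := one_class f hf U (V 0) (filter_subset _ _) (hV 0) z hz
  have h1' := one_class f hf U (V 1) (filter_subset _ _) (hV 1) z hz
  have h2 := one_class f hf U (V 2) (filter_subset _ _) (hV 2) z hz
  have h3 : (1 + z) ^ U.card * (1 + 7 * z ^ 2) ^ U.card
      ≤ Real.exp (U.card * (z + 7 * z ^ 2)) := by
    rw [Real.exp_nat_mul, Real.exp_add, mul_pow]
    gcongr
    · linarith [Real.add_one_le_exp z]
    · linarith [Real.add_one_le_exp (7 * z ^ 2)]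
  linarith

/-- averaging over `t`-subsets -/
theorem avg (f : α → α) (hf : Function.Injective f) (P : Finset α) (hP : ∀ e ∈ P, f e ∈ P)
    (t : ℕ) (K y : ℝ) (hK : 0 ≤ K) (hy : 0 ≤ y)
    (h : ∀ j ≤ t, j ≤ #{e ∈ P | f e ≠ e} →
      ((P.card - #{e ∈ P | f e ≠ e}).choose (t - j) : ℝ) ≤ K * y ^ j) :
    ∑ M ∈ P.powersetCard t, (1 / 2 : ℝ) ^ #{e ∈ M | f e ∉ M}
      ≤ K * Real.exp (#{e ∈ P | f e ≠ e} * (y / 2 + 2 * y ^ 2)) := by
  set U : Finset α := {e ∈ P | f e ≠ e} with hUdef
  have hU : ∀ e ∈ U, f e ≠ e := fun e he => (mem_filter.1 he).2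
  have hU' : ∀ e ∈ U, f e ∈ U := fun e he =>
    mem_filter.2 ⟨hP e (mem_filter.1 he).1, fun h => hU e he (hf h)⟩
  rw [← sum_fiberwise_of_maps_to (g := fun M => M ∩ U) (t := U.powerset)
    (fun M _ => mem_powerset.2 inter_subset_right)]
  have hg := gen f hf U hU (y / 2) (by positivity)
  have h1 : ∀ S ∈ U.powerset,
      ∑ M ∈ P.powersetCard t with M ∩ U = S, (1 / 2 : ℝ) ^ #{e ∈ M | f e ∉ M}
        ≤ K * ((y / 2) ^ S.card * 2 ^ #{e ∈ S | f e ∈ S}) := by
    intro S hS
    have hS' := mem_powerset.1 hS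
    have hterm : ∀ M ∈ ({M ∈ P.powersetCard t | M ∩ U = S} : Finset (Finset α)),
        (1 / 2 : ℝ) ^ #{e ∈ M | f e ∉ M} = (1 / 2) ^ S.card * 2 ^ #{e ∈ S | f e ∈ S} := by
      intro M hM
      obtain ⟨hM1, hM2⟩ := mem_filter.1 hM
      have hMP := (mem_powersetCard.1 hM1).1
      have e1 : ({e ∈ M | f e ∉ M} : Finset α) = {e ∈ S | ¬ f e ∈ S} := by
        ext e
        simp only [mem_filter, ← hM2, mem_inter]
        constructor
        · rintro ⟨h1, h2⟩
          refine ⟨⟨h1, mem_filter.2 ⟨hMP h1, fun h => h2 (h.symm ▸ h1)⟩⟩, fun h => h2 h.1⟩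
        · rintro ⟨⟨h1, h2⟩, h3⟩
          exact ⟨h1, fun h => h3 ⟨h, hU' e h2⟩⟩
      have e2 := card_filter_add_card_filter_not (s := S) (fun e => f e ∈ S)
      have e3 : ((1 / 2 : ℝ)) ^ #{e ∈ S | f e ∈ S} * 2 ^ #{e ∈ S | f e ∈ S} = 1 := by
        rw [← mul_pow]; norm_num
      rw [e1, ← e2, pow_add, mul_right_comm, e3, one_mul]
    rw [sum_congr rfl hterm, sum_const, nsmul_eq_mul]
    have hc : (#{M ∈ P.powersetCard t | M ∩ U = S} : ℝ) ≤ K * y ^ S.card := by
      by_cases hSt : S.card ≤ t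
      · refine le_trans ?_ (h _ hSt (card_le_card hS'))
        have : #{M ∈ P.powersetCard t | M ∩ U = S}
            ≤ ((P \ U).powersetCard (t - S.card)).card := by
          refine card_le_card_of_injOn (fun M => M \ U) ?_ ?_
          · intro M hM
            obtain ⟨hM1, hM2⟩ := mem_filter.1 (mem_coe.1 hM)
            obtain ⟨hMP, hMt⟩ := mem_powersetCard.1 hM1
            refine mem_coe.2 (mem_powersetCard.2 ⟨sdiff_subset_sdiff hMP subset_rfl, ?_⟩)
            have := card_sdiff_add_card_inter M U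
            rw [hM2] at this
            show (M \ U).card = _
            omega
          · intro M hM M' hM' hh
            have h1 := (mem_filter.1 (mem_coe.1 hM)).2
            have h2 := (mem_filter.1 (mem_coe.1 hM')).2
            simp only at hh
            rw [← sdiff_union_inter M U, ← sdiff_union_inter M' U, hh, h1, h2]
        rw [card_powersetCard, card_sdiff_of_subset (filter_subset _ _)] at this
        exact_mod_cast this
      · have : ({M ∈ P.powersetCard t | M ∩ U = S} : Finset (Finset α)) = ∅ := by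
          rw [eq_empty_iff_forall_notMem]
          intro M hM
          obtain ⟨hM1, hM2⟩ := mem_filter.1 hM
          have h1 := (mem_powersetCard.1 hM1).2
          have h2 := card_le_card (inter_subset_left (s₁ := M) (s₂ := U))
          rw [hM2] at h2
          omega
        rw [this]
        simp only [card_empty, Nat.cast_zero]
        positivity
    calc _ ≤ (K * y ^ S.card) * ((1 / 2) ^ S.card * 2 ^ #{e ∈ S | f e ∈ S}) := by gcongr
      _ = _ := by rw [div_pow y, one_div, inv_pow]; field_simp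
  refine (sum_le_sum h1).trans ?_
  rw [← mul_sum]
  gcongr
  refine hg.trans (Real.exp_le_exp.2 (mul_le_mul_of_nonneg_left ?_ (by positivity)))
  nlinarith [sq_nonneg y]

end Pool.Agent.H.MP_618f8d_co
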