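import Mathlib

namespace Pool.Agent.H.MP_618f8d_co

open Finset Real

theorem choose_rem_out (N t : ℕ) (ht : t ≤ N) (hN : 0 < N) : ∀ a ≤ N,
    ((N - a).choose t : ℝ) ≤ N.choose t * (1 - (t : ℝ) / N) ^ a := by
  have hp : 0 ≤ 1 - (t : ℝ) / N := by
    rw [sub_nonneg, div_le_one (by positivity)]; exact_mod_cast ht
  intro a
  induction a with
  | zero => simp
  | succ a ih =>
    intro ha
    have ih' := ih (by omega)
    obtain ⟨L, hL⟩ : ∃ L, N - a = L + 1 := ⟨N - a - 1, by omega⟩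
    have h1 : N - (a + 1) = L := by omega
    rw [h1, pow_succ, ← mul_assoc]
    rw [hL] at ih'
    refine le_trans ?_ (mul_le_mul_of_nonneg_right ih' hp)
    have h2 := Nat.choose_mul_succ_eq L t
    have h3 : (L.choose t : ℝ) * (L + 1) = (L + 1).choose t * ((L + 1 - t : ℕ) : ℝ) := by
      exact_mod_cast h2
    have h4 : (((L + 1 - t : ℕ) : ℝ)) ≤ (1 - (t : ℝ) / N) * (L + 1) := by
      by_cases h : t ≤ L + 1
      · rw [Nat.cast_sub h]
        push_cast
        have : (t : ℝ) / N * (L + 1) ≤ t := by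
          rw [div_mul_eq_mul_div, div_le_iff₀ (by positivity)]
          have : ((L : ℝ) + 1) ≤ N := by exact_mod_cast (by omega : L + 1 ≤ N)
          gcongr
        linarith
      · rw [Nat.sub_eq_zero_of_le (by omega)]
        simp only [Nat.cast_zero]
        positivity
    have h5 : (0 : ℝ) < L + 1 := by positivity
    have h6 : (L.choose t : ℝ) * (L + 1) ≤ (L + 1).choose t * (1 - (t : ℝ) / N) * (L + 1) := by
      rw [h3, mul_assoc]; gcongr
    exact le_of_mul_le_mul_right h6 h5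

theorem choose_rem_in (L t D : ℕ) (hD : 0 < D) : ∀ b ≤ t, D + b ≤ L →
    ((L - b).choose (t - b) : ℝ) ≤ L.choose t * ((t : ℝ) / D) ^ b := by
  intro b
  induction b with
  | zero => simp
  | succ b ih =>
    intro hb hL
    have ih' := ih (by omega) (by omega)
    have h1 : L - b = (L - (b + 1)) + 1 := by omega
    have h2 : t - b = (t - (b + 1)) + 1 := by omega
    rw [h1, h2] at ih'
    rw [pow_succ, ← mul_assoc]
    refine le_trans ?_ (mul_le_mul_of_nonneg_right ih' (by positivity))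
    have h3 := Nat.add_one_mul_choose_eq (L - (b + 1)) (t - (b + 1))
    generalize hA : L - (b + 1) = A at *
    generalize hB : t - (b + 1) = B at *
    have h4 : ((A : ℝ) + 1) * A.choose B = (A + 1).choose (B + 1) * ((B : ℝ) + 1) := by
      exact_mod_cast h3
    rw [mul_div_assoc', le_div_iff₀ (by positivity)]
    have h5 : (D : ℝ) ≤ A + 1 := by exact_mod_cast (by omega : D ≤ A + 1)
    have h6 : (B : ℝ) + 1 ≤ t := by exact_mod_cast (by omega : B + 1 ≤ t)
    calc (A.choose B : ℝ) * D ≤ A.choose B * (A + 1) := by gcongr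
      _ = (A + 1).choose (B + 1) * ((B : ℝ) + 1) := by rw [← h4]; ring
      _ ≤ _ := by gcongr

theorem choose_small (N t u j : ℕ) (ht : t < N) (hu : u < N) (hj : j ≤ t) (hju : j ≤ u) :
    ((N - u).choose (t - j) : ℝ) ≤ (N.choose t * (1 - (t : ℝ) / N) ^ u)
      * ((t : ℝ) / ((N - u : ℕ) * (1 - (t : ℝ) / N))) ^ j := by
  have hN : 0 < N := by omega
  have hp : 0 < 1 - (t : ℝ) / N := by
    rw [sub_pos, div_lt_one (by positivity)]; exact_mod_cast ht
  have h1 := choose_rem_in (N - (u - j)) t (N - u) (by omega) j hj (by omega)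
  have h2 := choose_rem_out N t ht.le hN (u - j) (by omega)
  rw [show N - (u - j) - j = N - u by omega] at h1
  refine h1.trans ((mul_le_mul_of_nonneg_right h2 (by positivity)).trans (le_of_eq ?_))
  have : (1 - (t : ℝ) / N) ^ u = (1 - (t : ℝ) / N) ^ (u - j) * (1 - (t : ℝ) / N) ^ j := by
    rw [← pow_add]; congr 1; omega
  rw [this, ← div_div, div_pow _ (1 - (t : ℝ) / N)]
  generalize (1 - (t : ℝ) / N) = q at *
  field_simp

theorem choose_large (A t j : ℕ) (hj : j ≤ t) (y : ℝ) (hy : 0 < y) :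
    (A.choose (t - j) : ℝ) ≤ (exp (y * A) / y ^ t) * y ^ j := by
  have h1 : (A.choose (t - j) : ℝ) ≤ (A : ℝ) ^ (t - j) / (t - j).factorial :=
    Nat.choose_le_pow_div _ _
  have h2 := Real.pow_div_factorial_le_exp (y * A) (by positivity) (t - j)
  have h3 : y ^ t = y ^ (t - j) * y ^ j := by rw [← pow_add]; congr 1; omega
  rw [h3]
  refine h1.trans ?_
  have : exp (y * A) / (y ^ (t - j) * y ^ j) * y ^ j = exp (y * A) / y ^ (t - j) := by
    field_simp
  rw [this, le_div_iff₀ (by positivity)]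
  refine le_trans (le_of_eq ?_) h2
  rw [mul_pow]; ring

theorem fact_le (t : ℕ) (ht : 0 < t) : (t.factorial : ℝ) ≤ exp 1 * t * (t / exp 1) ^ t := by
  obtain ⟨s, rfl⟩ : ∃ s, t = s + 1 := ⟨t - 1, by omega⟩
  have h := Stirling.stirlingSeq'_antitone (Nat.zero_le s)
  simp only [Function.comp, Nat.succ_eq_add_one, zero_add, Stirling.stirlingSeq_one] at h
  unfold Stirling.stirlingSeq at h
  have hs : (0 : ℝ) < ((s + 1 : ℕ) : ℝ) := by positivity
  rw [div_le_iff₀ (by positivity)] at h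
  refine h.trans ?_
  rw [← mul_assoc]
  refine mul_le_mul_of_nonneg_right ?_ (by positivity)
  rw [Real.sqrt_mul (by norm_num), ← mul_assoc, div_mul_cancel₀ _ (by positivity)]
  refine mul_le_mul_of_nonneg_left ?_ (by positivity)
  rw [Real.sqrt_le_left (by positivity)]
  have : (1 : ℝ) ≤ ((s + 1 : ℕ) : ℝ) := by exact_mod_cast Nat.succ_le_succ (Nat.zero_le s)
  nlinarith

theorem choose_lower (N t : ℕ) (ht : 0 < t) (htN : t ≤ N) :
    ((N : ℝ) - t) ^ t ≤ N.choose t * (exp 1 * t * (t / exp 1) ^ t) := by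
  have h1 : (((N + 1 - t : ℕ) : ℝ)) ^ t / t.factorial ≤ N.choose t := Nat.pow_le_choose t N
  rw [div_le_iff₀ (by positivity)] at h1
  have h2 : ((N : ℝ) - t) ≤ ((N + 1 - t : ℕ) : ℝ) := by
    rw [Nat.cast_sub (by omega)]; push_cast; linarith
  have h3 : (0 : ℝ) ≤ (N : ℝ) - t := by rw [sub_nonneg]; exact_mod_cast htN
  calc _ ≤ (((N + 1 - t : ℕ) : ℝ)) ^ t := by gcongr
    _ ≤ _ := h1
    _ ≤ _ := by gcongr; exact fact_le t ht

theorem desc_le (n : ℕ) (hn : 0 < n) : ∀ k ≤ n,
    (n.descFactorial k : ℝ) ≤ (n : ℝ) ^ k * exp (-((k : ℝ) * (k - 1) / (2 * n))) := by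
  intro k
  induction k with
  | zero => simp
  | succ k ih =>
    intro hk
    have ih' := ih (by omega)
    rw [Nat.descFactorial_succ, Nat.cast_mul, Nat.cast_sub (by omega)]
    have h1 : (n : ℝ) - k ≤ n * exp (-((k : ℝ) / n)) := by
      have := Real.add_one_le_exp (-((k : ℝ) / n))
      have h2 : (n : ℝ) - k = n * (-((k : ℝ) / n) + 1) := by field_simp; ring
      rw [h2]; gcongr
    refine (mul_le_mul h1 ih' (by positivity) (by positivity)).trans (le_of_eq ?_)
    have : -(((k + 1 : ℕ) : ℝ) * (((k + 1 : ℕ) : ℝ) - 1) / (2 * n))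
        = -((k : ℝ) / n) + -((k : ℝ) * (k - 1) / (2 * n)) := by
      push_cast; field_simp; ring
    rw [this, exp_add]; ring

theorem two_tangent (b : ℝ) (h0 : 0 ≤ b) (h1 : b ≤ 1) :
    (1 + b ^ 2) / 2 ≤ exp (-((1 - b) * log 2)) := by
  have l1 := Real.log_two_gt_d9
  have l2 := Real.log_two_lt_d9
  by_cases hb : b ≤ 1 / 2
  · have e : exp (-((1 - b) * log 2)) = exp (b * log 2) / 2 := by
      rw [show -((1 - b) * log 2) = b * log 2 - log 2 by ring, exp_sub, exp_log (by norm_num)]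
    rw [e]
    have := Real.add_one_le_exp (b * log 2)
    nlinarith
  · have := Real.add_one_le_exp (-((1 - b) * log 2))
    nlinarith

end Pool.Agent.H.MP_618f8d_co
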