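import Pool.Agent.H.MP_618f8d_co.B

namespace Pool.Agent.H.MP_618f8d_co

open Finset Real

theorem small_num (n N t k : ℝ) (u : ℕ) (hn : 400 ≤ n) (hN : N = n * (n - 1) / 2)
    (ht0 : 0 ≤ t) (hp : t ≤ N / 1000) (ht2 : n * (log n / log 2) - 1 ≤ t)
    (hk : 1 ≤ k) (hkn : 20 * k ≤ n) (hu1 : (u : ℝ) ≤ k * n)
    (hu2 : N - u ≤ (n - k) * (n - k - 1) / 2 + k) :
    (1 - t / N) ^ u * exp (u * (t / ((N - u) * (1 - t / N)) / 2
      + 2 * (t / ((N - u) * (1 - t / N))) ^ 2)) ≤ exp (-(6 / 5 * k * log n)) := by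
  have hN0 : 0 < N := by rw [hN]; nlinarith
  set p := t / N with hpdef
  have hp0 : 0 ≤ p := by positivity
  have hp1 : p ≤ 1 / 1000 := by rw [hpdef, div_le_iff₀ hN0]; linarith
  have hNu : 0.89 * N ≤ N - u := by
    have : (u : ℝ) ≤ n * n / 20 := by nlinarith
    nlinarith
  have htp : t = p * N := by rw [hpdef]; field_simp
  set y := t / ((N - u) * (1 - p)) with hy
  have hy0 : 0 ≤ y := by
    apply div_nonneg ht0
    apply mul_nonneg <;> nlinarith
  have hy1 : y ≤ 1.125 * p := by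
    rw [hy, div_le_iff₀ (by apply mul_pos <;> nlinarith), htp]
    have h1 : 0.89 * N * 0.999 ≤ (N - u) * (1 - p) := by
      apply mul_le_mul hNu (by linarith) (by norm_num) (by nlinarith)
    nlinarith [mul_nonneg hp0 hN0.le, mul_le_mul_of_nonneg_left h1 hp0]
  have h1 : (1 - p) ^ u ≤ exp (u * (-p)) := by
    rw [exp_nat_mul]
    gcongr
    · linarith
    · linarith [Real.add_one_le_exp (-p)]
  refine (mul_le_mul_of_nonneg_right h1 (exp_pos _).le).trans ?_
  rw [← exp_add, exp_le_exp]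
  have h2 : y / 2 + 2 * y ^ 2 ≤ 0.566 * p := by nlinarith
  have hu0 : (0 : ℝ) ≤ u := by positivity
  have h3 : 0.97 * (k * n) ≤ u := by
    have : k * (n - (k + 3) / 2) ≤ u := by rw [hN] at hu2; nlinarith
    have h4 : 0.97 * n ≤ n - (k + 3) / 2 := by linarith
    nlinarith
  have l1 := Real.log_two_gt_d9
  have l2 := Real.log_two_lt_d9
  have hl : 1 ≤ log n := by
    rw [le_log_iff_exp_le (by linarith)]
    linarith [Real.exp_one_lt_d9]
  have h5 : 2.88 * log n ≤ p * n := by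
    have h6 : 1.4426 * log n ≤ log n / log 2 := by
      rw [le_div_iff₀ (by linarith)]; nlinarith
    have h7 : p * N ≤ p * (n * n / 2) := by
      gcongr; rw [hN]; nlinarith
    have h8 : n * (1.4426 * log n) - 1 ≤ p * (n * n / 2) := by nlinarith
    have h9 : n * (1.44 * log n) ≤ n * (p * n / 2) := by nlinarith
    have := le_of_mul_le_mul_left h9 (by linarith)
    linarith
  have h10 : 0.97 * k * (2.88 * log n) ≤ p * u := by
    calc 0.97 * k * (2.88 * log n) ≤ 0.97 * k * (p * n) := by gcongr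
      _ = p * (0.97 * (k * n)) := by ring
      _ ≤ _ := by gcongr
  have h11 : u * (y / 2 + 2 * y ^ 2) ≤ u * (0.566 * p) := by gcongr
  have h12 : 0 ≤ k * log n := by positivity
  nlinarith

theorem base_num (n k N t u : ℝ) (hn : 400 ≤ n) (hN : N = n * (n - 1) / 2)
    (ht0 : 0 ≤ t) (hp : t ≤ N / 1000) (hk : 0 ≤ k) (hkn : k ≤ n)
    (hu2 : N - u ≤ (n - k) * (n - k - 1) / 2 + k) :
    (N - u / 2) ≤ (N - t) * (exp (2 * t / N) * exp (2 / (n - 1))
      * exp (-(k / n * log 2))) := by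
  have hN0 : (0 : ℝ) < N := by rw [hN]; nlinarith
  have hn0 : (0 : ℝ) < n := by linarith
  have hn1 : (0 : ℝ) < n - 1 := by linarith
  have b0 : 0 ≤ 1 - k / n := by rw [sub_nonneg, div_le_one hn0]; exact hkn
  have b1 : 1 - k / n ≤ 1 := by
    have : 0 ≤ k / n := by positivity
    linarith
  have tt := two_tangent (1 - k / n) b0 b1
  rw [sub_sub_cancel] at tt
  generalize exp (-(k / n * log 2)) = E at *
  have hE2 : 1 / 2 ≤ E := by linarith [sq_nonneg (1 - k / n)]
  have c1 : (n - k) * (n - k - 1) / 2 ≤ N * (1 - k / n) ^ 2 := by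
    rw [hN]
    have : n * (n - 1) / 2 * (1 - k / n) ^ 2 = (n - k) * ((n - 1) * (n - k) / n) / 2 := by
      field_simp
    rw [this]
    have h1 : n - k - 1 ≤ (n - 1) * (n - k) / n := by
      rw [le_div_iff₀ hn0]; nlinarith
    have h2 : 0 ≤ n - k := by linarith
    gcongr
  have c2 : k ≤ N * (2 / (n - 1)) := by
    have : N * (2 / (n - 1)) = n := by rw [hN]; field_simp
    linarith
  have h0 : (0 : ℝ) ≤ 2 / (n - 1) := by positivity
  generalize 2 / (n - 1) = d at *
  have c3 : N - u / 2 ≤ N * (E * (1 + d)) := by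
    have c4 : N * ((1 + (1 - k / n) ^ 2) / 2) ≤ N * E := by gcongr
    have c5 : N * d * (1 / 2) ≤ N * d * E := by gcongr
    linarith
  have c6 : N ≤ (N - t) * exp (2 * t / N) := by
    have h1 := Real.add_one_le_exp (2 * t / N)
    have h2 : N ≤ (N - t) * (2 * t / N + 1) := by
      have h3 : (N - t) * (2 * t / N + 1) = N + t * (1 - 2 * t / N) := by field_simp; ring
      have h4 : 2 * t / N ≤ 1 := by rw [div_le_one hN0]; linarith
      have := mul_nonneg ht0 (sub_nonneg.2 h4)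
      linarith
    have : 0 ≤ N - t := by linarith
    exact h2.trans (by gcongr)
  have c7 : 1 + d ≤ exp d := by linarith [Real.add_one_le_exp d]
  have : 0 ≤ N - t := by linarith
  calc _ ≤ N * (E * (1 + d)) := c3
    _ ≤ ((N - t) * exp (2 * t / N)) * (E * exp d) := by gcongr
    _ = _ := by ring

theorem large_num (n k : ℝ) (N t u : ℕ) (hn : 400 ≤ n) (hN : (N : ℝ) = n * (n - 1) / 2)
    (ht0 : 0 < t) (hp : (t : ℝ) ≤ N / 1000) (ht2 : n * (log n / log 2) - 1 ≤ t)
    (hk : 0 ≤ k) (hkn : k ≤ n) (hu1 : u ≤ N)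
    (hu2 : (N : ℝ) - u ≤ (n - k) * (n - k - 1) / 2 + k) :
    exp (t / (N - u / 2) * (N - u)) / (t / (N - u / 2)) ^ t
      * exp (u * (t / (N - u / 2) / 2 + 2 * (t / (N - u / 2)) ^ 2))
      ≤ N.choose t * (exp 1 * t * exp (10 * t ^ 2 / N) * exp (2 * t / (n - 1))
        * (2 * exp (-(k * log n)))) := by
  have hN0 : (0 : ℝ) < N := by rw [hN]; nlinarith
  have ht0' : (0 : ℝ) < t := by exact_mod_cast ht0
  have hu1' : (u : ℝ) ≤ N := by exact_mod_cast hu1
  have hu0 : (0 : ℝ) ≤ u := by positivity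
  have hD : (0 : ℝ) < N - u / 2 := by linarith
  have htN : t ≤ N := by exact_mod_cast (by linarith : (t : ℝ) ≤ N)
  set y : ℝ := t / (N - u / 2) with hy
  have hy0 : 0 < y := by positivity
  have hyD : y * (N - u / 2) = t := by rw [hy]; exact div_mul_cancel₀ _ hD.ne'
  have hy1 : y ≤ 2 * t / N := by
    rw [hy, div_le_div_iff₀ hD hN0]; nlinarith
  have e1 : exp (y * (N - u)) * exp (u * (y / 2 + 2 * y ^ 2)) ≤ exp t * exp (8 * t ^ 2 / N) := by
    rw [← exp_add, ← exp_add, exp_le_exp]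
    have h1 : u * (2 * y ^ 2) ≤ N * (2 * (2 * t / N) ^ 2) := by gcongr
    have h2 : N * (2 * (2 * (t : ℝ) / N) ^ 2) = 8 * t ^ 2 / N := by field_simp; ring
    nlinarith
  have hl := choose_lower N t ht0 htN
  have hNt : (0 : ℝ) < N - t := by linarith
  -- the base
  have l1 := Real.log_two_gt_d9
  have l2 := Real.log_two_lt_d9
  have hb := base_num n k N t u hn hN ht0'.le hp hk hkn hu2
  have hb2 : ((N : ℝ) - u / 2) ^ t ≤ (N - t) ^ t * (exp (2 * t ^ 2 / N) * exp (2 * t / (n - 1))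
      * (2 * exp (-(k * log n)))) := by
    refine (pow_le_pow_left₀ hD.le hb t).trans ?_
    rw [mul_pow, mul_pow, mul_pow, ← exp_nat_mul, ← exp_nat_mul, ← exp_nat_mul]
    refine mul_le_mul_of_nonneg_left ?_ (by positivity)
    rw [show (t : ℝ) * (2 * t / N) = 2 * t ^ 2 / N by ring,
      show (t : ℝ) * (2 / (n - 1)) = 2 * t / (n - 1) by ring]
    refine mul_le_mul_of_nonneg_left ?_ (by positivity)
    rw [show (2 : ℝ) * exp (-(k * log n)) = exp (log 2 + -(k * log n)) by
      rw [exp_add, exp_log (by norm_num)], exp_le_exp]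
    have h1 : k / n * log 2 * (n * (log n / log 2) - 1) ≤ k / n * log 2 * t := by
      gcongr
    have h2 : k / n * log 2 * (n * (log n / log 2) - 1) = k * log n - k / n * log 2 := by
      have : n ≠ 0 := by linarith
      have : log 2 ≠ 0 := by linarith
      field_simp
    have h3 : k / n ≤ 1 := by rw [div_le_one (by linarith)]; exact hkn
    nlinarith
  have hyt : y ^ t = (t : ℝ) ^ t / (N - u / 2) ^ t := by rw [hy, div_pow]
  set R := exp (2 * t ^ 2 / N) * exp (2 * t / (n - 1)) * (2 * exp (-(k * log n))) with hR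
  have hR0 : 0 ≤ R := by positivity
  have het : exp (t : ℝ) = exp 1 ^ t := by rw [← exp_nat_mul, mul_one]
  calc _ = (exp (y * (N - u)) * exp (u * (y / 2 + 2 * y ^ 2))) * ((N - u / 2) ^ t / t ^ t) := by
        rw [hyt]; field_simp
    _ ≤ (exp t * exp (8 * t ^ 2 / N))
        * ((N.choose t * (exp 1 * t * (t / exp 1) ^ t)) * R / t ^ t) := by
        gcongr
        exact hb2.trans (by gcongr)
    _ = _ := by
        rw [het, div_pow, hR, show 10 * (t : ℝ) ^ 2 / N = 8 * t ^ 2 / N + 2 * t ^ 2 / N by ring,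
          exp_add]
        field_simp

end Pool.Agent.H.MP_618f8d_co
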