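import Pool.Agent.H.MP_618f8d_co.A
import Pool.Agent.H.MP_618f8d_co.C

namespace Pool.Agent.H.MP_618f8d_co

open Finset Real

/-- all pairs -/
noncomputable def PP (n : ℕ) : Finset (Sym2 (Fin n)) := (⊤ : SimpleGraph (Fin n)).edgeFinset

theorem card_PP (n : ℕ) : (PP n).card = n.choose 2 := by
  rw [PP, SimpleGraph.card_edgeFinset_top_eq_card_choose_two, Fintype.card_fin]

theorem mem_PP {n : ℕ} (e : Sym2 (Fin n)) : e ∈ PP n ↔ ¬ e.IsDiag := by
  simp [PP]

theorem map_mem {n : ℕ} (σ : Equiv.Perm (Fin n)) : ∀ e ∈ PP n, Sym2.map σ e ∈ PP n := by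
  intro e he
  rw [mem_PP] at *
  rwa [Sym2.isDiag_map σ.injective]

theorem u_le {n : ℕ} (σ : Equiv.Perm (Fin n)) :
    #{e ∈ PP n | Sym2.map σ e ≠ e} ≤ σ.support.card * n := by
  have : ({e ∈ PP n | Sym2.map σ e ≠ e} : Finset _)
      ⊆ (σ.support ×ˢ (univ : Finset (Fin n))).image (fun p => s(p.1, p.2)) := by
    intro e he
    have h := (mem_filter.1 he).2
    induction e using Sym2.ind with
    | h a b =>
      by_cases ha : σ a = a
      · have hb : σ b ≠ b := fun hb => h (by simp [ha, hb])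
        exact mem_image.2 ⟨(b, a), by simp [hb], Sym2.eq_swap⟩
      · exact mem_image.2 ⟨(a, b), by simp [ha], rfl⟩
  refine (card_le_card this).trans (card_image_le.trans ?_)
  simp

theorem u_ge {n : ℕ} (σ : Equiv.Perm (Fin n)) :
    n.choose 2 ≤ #{e ∈ PP n | Sym2.map σ e ≠ e} + ((n - σ.support.card).choose 2
      + σ.support.card) := by
  have h1 := card_filter_add_card_filter_not (s := PP n) (fun e => Sym2.map σ e ≠ e)
  rw [card_PP] at h1
  have : ({e ∈ PP n | ¬ Sym2.map σ e ≠ e} : Finset _)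
      ⊆ (σ.supportᶜ.offDiag.image Sym2.mk.uncurry) ∪ σ.support.image (fun a => s(a, σ a)) := by
    intro e he
    obtain ⟨h0, h⟩ := mem_filter.1 he
    rw [not_not] at h
    rw [mem_PP] at h0
    induction e using Sym2.ind with
    | h a b =>
      simp only [Sym2.map_mk, Sym2.eq_iff] at h
      simp only [Sym2.mk_isDiag_iff] at h0
      rcases h with ⟨h1, h2⟩ | ⟨h1, h2⟩
      · exact mem_union_left _ (mem_image.2 ⟨(a, b), by simp [h1, h2, h0], rfl⟩)
      · refine mem_union_right _ (mem_image.2 ⟨a, ?_, by rw [h1]⟩)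
        simp [h1, Ne.symm h0]
  have h2 := (card_le_card this).trans (card_union_le _ _)
  rw [Sym2.card_image_offDiag, card_compl, Fintype.card_fin] at h2
  have h3 : (σ.support.image (fun a => s(a, σ a))).card ≤ σ.support.card := card_image_le
  omega

theorem card_supp (n k : ℕ) :
    #{σ : Equiv.Perm (Fin n) | σ.support.card = k} ≤ n.descFactorial k := by
  have h1 : ({σ : Equiv.Perm (Fin n) | σ.support.card = k} : Finset _)
      ⊆ ((univ : Finset (Fin n)).powersetCard k).biUnion
        (fun S => {σ : Equiv.Perm (Fin n) | ∀ a, ¬ a ∈ S → σ a = a}) := by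
    intro σ hσ
    refine mem_biUnion.2 ⟨σ.support, mem_powersetCard.2 ⟨subset_univ _, (mem_filter.1 hσ).2⟩, ?_⟩
    simp
  refine (card_le_card h1).trans (card_biUnion_le.trans ?_)
  have h2 : ∀ S ∈ (univ : Finset (Fin n)).powersetCard k,
      #{σ : Equiv.Perm (Fin n) | ∀ a, ¬ a ∈ S → σ a = a} = k.factorial := by
    intro S hS
    rw [← Fintype.card_subtype,
      ← Fintype.card_congr (Equiv.Perm.subtypeEquivSubtypePerm (fun a => a ∈ S)),
      Fintype.card_perm, Fintype.card_coe, (mem_powersetCard.1 hS).2]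
  rw [sum_congr rfl h2, sum_const, card_powersetCard, card_univ, Fintype.card_fin, smul_eq_mul,
    Nat.descFactorial_eq_factorial_mul_choose, mul_comm]

theorem sum_supp (n : ℕ) (g : ℕ → ℝ) (hg : ∀ k, 0 ≤ g k) :
    ∑ σ : Equiv.Perm (Fin n) with σ ≠ 1, g σ.support.card
      ≤ ∑ k ∈ Icc 1 n, n.descFactorial k * g k := by
  rw [← sum_fiberwise_of_maps_to (g := fun σ : Equiv.Perm (Fin n) => σ.support.card)
    (t := Icc 1 n)]
  · refine sum_le_sum fun k _ => ?_
    rw [sum_congr rfl (g := fun _ => g k) (fun σ hσ => by rw [(mem_filter.1 hσ).2]), sum_const,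
      nsmul_eq_mul]
    refine mul_le_mul_of_nonneg_right ?_ (hg k)
    refine Nat.cast_le.2 (le_trans (card_le_card ?_) (card_supp n k))
    intro σ hσ
    simp [(mem_filter.1 hσ).2]
  · intro σ hσ
    refine mem_Icc.2 ⟨?_, (card_le_univ _).trans (by simp)⟩
    have := (mem_filter.1 hσ).2
    rw [Nat.one_le_iff_ne_zero]
    intro h
    exact this (Equiv.Perm.card_support_eq_zero.1 h)

theorem cast_choose_two (m : ℕ) : ((m.choose 2 : ℕ) : ℝ) = m * (m - 1) / 2 :=
  Nat.cast_choose_two ℝ m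

set_option maxHeartbeats 2000000 in
/-- the first moment -/
theorem moment (n t : ℕ) (hn : 400 ≤ n) (hl : 273600 * log n ^ 2 ≤ n)
    (ht1 : (t : ℝ) ≤ n * (log n / log 2)) (ht2 : n * (log n / log 2) - 1 ≤ t) :
    t ≤ n.choose 2 ∧ ∑ σ : Equiv.Perm (Fin n) with σ ≠ 1,
      ∑ M ∈ (PP n).powersetCard t, (1 / 2 : ℝ) ^ #{e ∈ M | Sym2.map σ e ∉ M}
      ≤ (n.choose 2).choose t * (2 * exp (-(log n / 5)) + 4 * exp 1 * exp (1 / 2 - n / 1600)) := by
  have hn' : (400 : ℝ) ≤ n := by exact_mod_cast hn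
  have l1 := Real.log_two_gt_d9
  have l2 := Real.log_two_lt_d9
  have hl1 : 4 ≤ log n := by
    rw [le_log_iff_exp_le (by linarith), show (4 : ℝ) = (4 : ℕ) * 1 by norm_num, exp_nat_mul]
    have := Real.exp_one_lt_d9
    have : exp 1 ^ 4 ≤ 3 ^ 4 := by gcongr; linarith
    linarith
  set N := n.choose 2 with hNdef
  have hN : (N : ℝ) = n * (n - 1) / 2 := cast_choose_two n
  have hL : log n / log 2 ≤ 2 * log n := by rw [div_le_iff₀ (by linarith)]; nlinarith
  have hL' : log n ≤ log n / log 2 := by rw [le_div_iff₀ (by linarith)]; nlinarith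
  have ht3 : (t : ℝ) ≤ 2 * n * log n := by nlinarith
  have hN4 : (n : ℝ) * n / 4 ≤ N := by rw [hN]; nlinarith
  have hN0 : (0 : ℝ) < N := by nlinarith
  have hp : (t : ℝ) ≤ N / 1000 := by
    have : 8000 * log n ≤ n := by nlinarith
    nlinarith
  have ht0' : (0 : ℝ) < t := by nlinarith
  have ht0 : 0 < t := by exact_mod_cast ht0'
  have htN : t < N := by exact_mod_cast (by linarith : (t : ℝ) < N)
  refine ⟨htN.le, ?_⟩
  set G : ℝ := exp 1 * t * exp (10 * t ^ 2 / N) * exp (2 * t / (n - 1)) with hG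
  have hG0 : 0 ≤ G := by positivity
  set g : ℕ → ℝ := fun k => if 20 * k ≤ n then exp (-(6 / 5 * k * log n))
    else G * (2 * exp (-(k * log n))) with hg
  have hg0 : ∀ k, 0 ≤ g k := fun k => by
    simp only [hg]; split_ifs <;> positivity
  have key : ∀ σ ∈ ({σ : Equiv.Perm (Fin n) | σ ≠ 1} : Finset _),
      ∑ M ∈ (PP n).powersetCard t, (1 / 2 : ℝ) ^ #{e ∈ M | Sym2.map σ e ∉ M}
        ≤ N.choose t * g σ.support.card := by
    intro σ hσ
    have hk1 : 1 ≤ σ.support.card := by
      rw [Nat.one_le_iff_ne_zero]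
      exact fun h => (mem_filter.1 hσ).2 (Equiv.Perm.card_support_eq_zero.1 h)
    have hkn : σ.support.card ≤ n := (card_le_univ _).trans (by simp)
    have hu1 := u_le σ
    have hu2 := u_ge σ
    have hu3 : #{e ∈ PP n | Sym2.map σ e ≠ e} ≤ N := (card_filter_le _ _).trans (card_PP n).le
    have hav := fun K y hK hy h =>
      avg (Sym2.map σ) (Sym2.map.injective σ.injective) (PP n) (map_mem σ) t K y hK hy h
    rw [card_PP, ← hNdef] at hav
    generalize σ.support.card = k at *
    generalize #{e ∈ PP n | Sym2.map σ e ≠ e} = u at *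
    have hu2' : (N : ℝ) - u ≤ ((n : ℝ) - k) * (n - k - 1) / 2 + k := by
      have h1 : (N : ℝ) ≤ u + (((n - k).choose 2 : ℕ) + k) := by exact_mod_cast hu2
      rw [cast_choose_two (n - k), Nat.cast_sub hkn] at h1
      linarith
    have hu1' : (u : ℝ) ≤ k * n := by exact_mod_cast hu1
    simp only [hg]
    split_ifs with h20
    · have h20' : 20 * (k : ℝ) ≤ n := by exact_mod_cast h20
      have huN : u < N := by
        have : (u : ℝ) < N := by nlinarith
        exact_mod_cast this
      have hq : 0 < 1 - (t : ℝ) / N := by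
        rw [sub_pos, div_lt_one hN0]; exact_mod_cast htN
      refine (hav _ _ (by positivity) (by positivity)
        (fun j hj hju => choose_small N t u j htN huN hj hju)).trans ?_
      rw [mul_assoc, Nat.cast_sub hu3]
      refine mul_le_mul_of_nonneg_left ?_ (by positivity)
      exact small_num n N t k u hn' hN ht0'.le hp ht2 (by exact_mod_cast hk1) h20' hu1' hu2'
    · have hu3' : (u : ℝ) ≤ N := by exact_mod_cast hu3
      have hD : (0 : ℝ) < N - u / 2 := by linarith
      refine (hav _ _ (by positivity) (by positivity)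
        (fun j hj _ => choose_large (N - u) t j hj (t / (N - u / 2)) (by positivity))).trans ?_
      rw [Nat.cast_sub hu3]
      exact large_num n k N t u hn' hN ht0 hp ht2 (by positivity) (by exact_mod_cast hkn) hu3 hu2'
  refine (sum_le_sum key).trans ?_
  rw [← mul_sum]
  refine mul_le_mul_of_nonneg_left ((sum_supp n g hg0).trans ?_) (by positivity)
  set r := exp (-(log n / 5)) with hr
  have hr0 : 0 ≤ r := by positivity
  have hr1 : r ≤ 1 / 2 := by
    rw [hr, ← exp_log (show (0 : ℝ) < 1 / 2 by norm_num), exp_le_exp, one_div, log_inv]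
    linarith
  have hnk : ∀ k : ℕ, (n : ℝ) ^ k = exp (k * log n) := fun k => by
    rw [exp_nat_mul, exp_log (by linarith)]
  have h1 : ∀ k ∈ Icc 1 n, n.descFactorial k * g k
      ≤ r * (1 / 2) ^ (k - 1) + exp (1 / 2 - n / 800) * (2 * G) := by
    intro k hk
    obtain ⟨hk1, hkn⟩ := mem_Icc.1 hk
    simp only [hg]
    split_ifs with h20
    · have h2 : (n.descFactorial k : ℝ) ≤ (n : ℝ) ^ k := by
        exact_mod_cast Nat.descFactorial_le_pow n k
      have h3 : (n : ℝ) ^ k * exp (-(6 / 5 * k * log n)) = r * r ^ (k - 1) := by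
        rw [← pow_succ', Nat.sub_add_cancel hk1, hnk, hr, ← exp_nat_mul, ← exp_add]
        congr 1; ring
      have h4 : r * r ^ (k - 1) ≤ r * (1 / 2) ^ (k - 1) := by gcongr
      have h5 : 0 ≤ exp (1 / 2 - n / 800) * (2 * G) := by positivity
      have h6 : (n.descFactorial k : ℝ) * exp (-(6 / 5 * k * log n))
          ≤ (n : ℝ) ^ k * exp (-(6 / 5 * k * log n)) := by gcongr
      linarith
    · have h2 := desc_le n (by omega) k hkn
      have h20' : (n : ℝ) ≤ 20 * k := by exact_mod_cast (by omega : n ≤ 20 * k)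
      have hkn' : (k : ℝ) ≤ n := by exact_mod_cast hkn
      have h3 : exp (-((k : ℝ) * (k - 1) / (2 * n))) ≤ exp (1 / 2 - n / 800) := by
        rw [exp_le_exp]
        have : (n : ℝ) / 800 - 1 / 2 ≤ (k : ℝ) * (k - 1) / (2 * n) := by
          rw [le_div_iff₀ (by linarith)]; nlinarith
        linarith
      have h4 : (n : ℝ) ^ k * exp (-(k * log n)) = 1 := by
        rw [hnk, ← exp_add]; simp
      have h5 : 0 ≤ r * (1 / 2) ^ (k - 1) := by positivity
      have h6 : (n.descFactorial k : ℝ) * (G * (2 * exp (-(k * log n))))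
          ≤ ((n : ℝ) ^ k * exp (1 / 2 - n / 800)) * (G * (2 * exp (-(k * log n)))) := by
        gcongr
        exact h2.trans (by gcongr)
      have h7 : ((n : ℝ) ^ k * exp (1 / 2 - n / 800)) * (G * (2 * exp (-(k * log n))))
          = ((n : ℝ) ^ k * exp (-(k * log n))) * (exp (1 / 2 - n / 800) * (2 * G)) := by ring
      rw [h7, h4, one_mul] at h6
      linarith
  refine (sum_le_sum h1).trans ?_
  rw [sum_add_distrib, ← mul_sum, sum_const, Nat.card_Icc, nsmul_eq_mul]
  have h2 : ∑ k ∈ Icc 1 n, (1 / 2 : ℝ) ^ (k - 1) ≤ 2 := by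
    have := sum_geometric_two_le n
    rw [← Finset.Ico_add_one_right_eq_Icc, sum_Ico_eq_sum_range]
    simpa using this
  have h3 : ((n + 1 - 1 : ℕ) : ℝ) * (exp (1 / 2 - n / 800) * (2 * G))
      ≤ 4 * exp 1 * exp (1 / 2 - n / 1600) := by
    simp only [Nat.add_sub_cancel]
    have a1 : (n : ℝ) = exp (log n) := (exp_log (by linarith)).symm
    have a2 : (t : ℝ) ≤ 2 * exp (2 * log n) := by
      rw [two_mul (log n), exp_add, ← a1]
      have : log n ≤ n := by nlinarith
      nlinarith
    have a3 : 10 * (t : ℝ) ^ 2 / N ≤ 160 * log n ^ 2 := by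
      rw [div_le_iff₀ hN0]
      have : (t : ℝ) ^ 2 ≤ (2 * n * log n) ^ 2 := by gcongr
      have h5 : 160 * log n ^ 2 * ((n : ℝ) * n / 4) ≤ 160 * log n ^ 2 * N := by gcongr
      nlinarith
    have a4 : 2 * (t : ℝ) / (n - 1) ≤ 8 * log n := by
      rw [div_le_iff₀ (by linarith)]; nlinarith
    calc (n : ℝ) * (exp (1 / 2 - n / 800) * (2 * G))
        ≤ exp (log n) * (exp (1 / 2 - n / 800) * (2 * (exp 1 * (2 * exp (2 * log n))
          * exp (160 * log n ^ 2) * exp (8 * log n)))) := by
          rw [← a1, hG]; gcongr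
      _ = 4 * exp 1 * exp (log n + (1 / 2 - n / 800) + 2 * log n + 160 * log n ^ 2
          + 8 * log n) := by simp only [exp_add]; ring
      _ ≤ _ := by
          gcongr
          nlinarith
  have h4 : r * ∑ k ∈ Icc 1 n, (1 / 2 : ℝ) ^ (k - 1) ≤ r * 2 := by gcongr
  linarith

end Pool.Agent.H.MP_618f8d_co
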