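import Pool.Agent.H.MP_618f8d_co.D

namespace Pool.Agent.H.MP_618f8d_co

open Finset Real

open Classical in
/-- the edges -/
noncomputable def ed {n : ℕ} (G : SimpleGraph (Fin n)) : Finset (Sym2 (Fin n)) :=
  {e ∈ PP n | e ∈ G.edgeSet}

theorem mem_ed {n : ℕ} {G : SimpleGraph (Fin n)} {e : Sym2 (Fin n)} :
    e ∈ ed G ↔ e ∈ G.edgeSet := by
  simp only [ed, mem_filter, mem_PP]
  exact ⟨fun h => h.2, fun h => ⟨G.not_isDiag_of_mem_edgeSet h, h⟩⟩

theorem ed_inj {n : ℕ} {G H : SimpleGraph (Fin n)} (h : ed G = ed H) : G = H := by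
  apply SimpleGraph.edgeSet_inj.1
  ext e
  rw [← mem_ed, ← mem_ed, h]

theorem ed_card {n : ℕ} (G : SimpleGraph (Fin n)) : G.edgeSet.ncard = (ed G).card := by
  rw [← Set.ncard_coe_finset]
  congr 1
  ext e
  simp [mem_ed]

/-- the missing pairs -/
noncomputable def miss {n : ℕ} (G : SimpleGraph (Fin n)) : Finset (Sym2 (Fin n)) :=
  PP n \ ed G

theorem edge_sub {n : ℕ} (G : SimpleGraph (Fin n)) : ed G ⊆ PP n := by
  intro e he
  rw [mem_PP]
  exact G.not_isDiag_of_mem_edgeSet (mem_ed.1 he)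

theorem from_edges {n : ℕ} (F : Finset (Sym2 (Fin n))) (hF : F ⊆ PP n) :
    ed (SimpleGraph.fromEdgeSet (F : Set (Sym2 (Fin n)))) = F := by
  ext e
  simp only [mem_ed, SimpleGraph.edgeSet_fromEdgeSet, Set.mem_sdiff, mem_coe]
  refine ⟨fun h => h.1, fun h => ⟨h, ?_⟩⟩
  have := (mem_PP e).1 (hF h)
  simpa using this

open Classical in
theorem card_sub {n : ℕ} (A : Finset (Sym2 (Fin n))) (hA : A ⊆ PP n) :
    #{H : SimpleGraph (Fin n) | ed H ⊆ A} = 2 ^ A.card := by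
  rw [← card_powerset]
  refine card_bij (fun H _ => ed H) ?_ ?_ ?_
  · intro H hH
    exact mem_powerset.2 (mem_filter.1 hH).2
  · intro H _ H' _ h
    exact ed_inj h
  · intro F hF
    have := mem_powerset.1 hF
    exact ⟨_, mem_filter.2 ⟨mem_univ _, (from_edges F (this.trans hA)).symm ▸ this⟩,
      from_edges F (this.trans hA)⟩

/-- the bad sum -/
noncomputable def Z {n : ℕ} (M : Finset (Sym2 (Fin n))) : ℝ :=
  ∑ σ : Equiv.Perm (Fin n) with σ ≠ 1, (1 / 2 : ℝ) ^ #{e ∈ M | Sym2.map σ e ∉ M}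

open Classical in
theorem uniq_ge {n : ℕ} (G : SimpleGraph (Fin n)) :
    2 ^ (ed G).card * (1 - Z (miss G))
      ≤ (#{H : SimpleGraph (Fin n) | H ≤ G ∧ ∀ H' ≤ G, Nonempty (H' ≃g H) → H' = H} : ℝ) := by
  set D : Equiv.Perm (Fin n) → Finset (Sym2 (Fin n)) := fun σ =>
    ({e ∈ miss G | Sym2.map σ e ∉ miss G} : Finset _).image (Sym2.map σ) with hD
  have hDG : ∀ σ, D σ ⊆ ed G := by
    intro σ e he
    obtain ⟨e', he', rfl⟩ := mem_image.1 he
    obtain ⟨h1, h2⟩ := mem_filter.1 he'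
    by_contra h
    exact h2 (mem_sdiff.2 ⟨map_mem σ e' (mem_sdiff.1 h1).1, h⟩)
  have hDc : ∀ σ, (D σ).card = #{e ∈ miss G | Sym2.map σ e ∉ miss G} := fun σ =>
    card_image_of_injective _ (Sym2.map.injective σ.injective)
  have h1 : ({H : SimpleGraph (Fin n) | ed H ⊆ ed G} : Finset _)
      ⊆ ({H : SimpleGraph (Fin n) | H ≤ G ∧ ∀ H' ≤ G, Nonempty (H' ≃g H) → H' = H} : Finset _)
        ∪ ({σ : Equiv.Perm (Fin n) | σ ≠ 1} : Finset _).biUnion
          (fun σ => {H : SimpleGraph (Fin n) | ed H ⊆ ed G \ D σ}) := by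
    intro H hH
    have hH' := (mem_filter.1 hH).2
    by_cases h : ∀ H' ≤ G, Nonempty (H' ≃g H) → H' = H
    · exact mem_union_left _ (mem_filter.2 ⟨mem_univ _,
        SimpleGraph.edgeSet_subset_edgeSet.1 (fun e he => mem_ed.1 (hH' (mem_ed.2 he))), h⟩)
    · push Not at h
      obtain ⟨H', h1, ⟨φ⟩, h2⟩ := h
      refine mem_union_right _ (mem_biUnion.2 ⟨φ.toEquiv, mem_filter.2 ⟨mem_univ _, ?_⟩,
        mem_filter.2 ⟨mem_univ _, ?_⟩⟩)
      · intro h
        apply h2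
        ext a b
        have := φ.map_adj_iff (v := a) (w := b)
        have e : ∀ x, φ x = x := fun x => congrArg (fun f : Equiv.Perm (Fin n) => f x) h
        rw [e, e] at this
        exact this.symm
      · intro e he
        refine mem_sdiff.2 ⟨hH' he, fun hd => ?_⟩
        obtain ⟨e', he', rfl⟩ := mem_image.1 hd
        have h3 := (mem_sdiff.1 (mem_filter.1 he').1).2
        apply h3
        rw [mem_ed] at he ⊢
        refine SimpleGraph.edgeSet_mono h1 ?_
        exact φ.map_mem_edgeSet_iff.1 he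
  have h2 := (card_le_card h1).trans ((card_union_le _ _).trans
    (Nat.add_le_add_left card_biUnion_le _))
  rw [card_sub _ (edge_sub G)] at h2
  have h3 : ∀ σ : Equiv.Perm (Fin n),
      (#{H : SimpleGraph (Fin n) | ed H ⊆ ed G \ D σ} : ℝ)
        = 2 ^ (ed G).card * (1 / 2) ^ #{e ∈ miss G | Sym2.map σ e ∉ miss G} := by
    intro σ
    rw [card_sub _ (sdiff_subset.trans (edge_sub G)), ← hDc,
      ← card_sdiff_add_card_eq_card (hDG σ), pow_add]
    push_cast
    rw [mul_assoc, ← mul_pow]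
    norm_num
  have h4 : (2 : ℝ) ^ (ed G).card
      ≤ #{H : SimpleGraph (Fin n) | H ≤ G ∧ ∀ H' ≤ G, Nonempty (H' ≃g H) → H' = H}
        + ∑ σ : Equiv.Perm (Fin n) with σ ≠ 1,
          (#{H : SimpleGraph (Fin n) | ed H ⊆ ed G \ D σ} : ℝ) := by
    exact_mod_cast h2
  simp only [h3, ← mul_sum] at h4
  rw [Z]
  linarith

open Classical in
theorem sum_miss (n t : ℕ) (ht : t ≤ n.choose 2) (f : Finset (Sym2 (Fin n)) → ℝ) :
    ∑ G : SimpleGraph (Fin n) with (ed G).card = n.choose 2 - t, f (miss G)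
      = ∑ M ∈ (PP n).powersetCard t, f M := by
  refine sum_bij (fun G _ => miss G) ?_ ?_ ?_ (fun _ _ => rfl)
  · intro G hG
    refine mem_powersetCard.2 ⟨sdiff_subset, ?_⟩
    rw [miss, card_sdiff_of_subset (edge_sub G), card_PP, (mem_filter.1 hG).2]
    omega
  · intro G _ G' _ h
    apply ed_inj
    rw [← Finset.sdiff_sdiff_eq_self (edge_sub G), ← Finset.sdiff_sdiff_eq_self (edge_sub G')]
    exact congrArg _ h
  · intro M hM
    obtain ⟨h1, h2⟩ := mem_powersetCard.1 hM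
    refine ⟨SimpleGraph.fromEdgeSet ((PP n \ M : Finset _) : Set _), mem_filter.2 ⟨mem_univ _, ?_⟩,
      ?_⟩
    · rw [from_edges _ sdiff_subset, card_sdiff_of_subset h1, card_PP, h2]
    · rw [miss, from_edges _ sdiff_subset, Finset.sdiff_sdiff_eq_self h1]

open Classical in
/-- Markov -/
theorem main (n t : ℕ) (hn : 400 ≤ n) (hl : 273600 * log n ^ 2 ≤ n)
    (ht1 : (t : ℝ) ≤ n * (log n / log 2)) (ht2 : n * (log n / log 2) - 1 ≤ t)
    (c : ℝ) (hc : c < 1) :
    0 < #{G : SimpleGraph (Fin n) | (ed G).card = n.choose 2 - t} ∧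
    (#{G : SimpleGraph (Fin n) | (ed G).card = n.choose 2 - t} : ℝ)
      * (1 - (2 * exp (-(log n / 5)) + 4 * exp 1 * exp (1 / 2 - n / 1600)) / (1 - c))
    ≤ #{G : SimpleGraph (Fin n) | (ed G).card = n.choose 2 - t ∧ c * 2 ^ (n.choose 2 - t)
      ≤ (#{H : SimpleGraph (Fin n) | H ≤ G ∧ ∀ H' ≤ G, Nonempty (H' ≃g H) → H' = H} : ℝ)} := by
  obtain ⟨ht, hm⟩ := moment n t hn hl ht1 ht2
  set b := 2 * exp (-(log n / 5)) + 4 * exp 1 * exp (1 / 2 - n / 1600)
  have h1 := sum_miss n t ht (fun _ => 1)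
  simp only [sum_const, nsmul_eq_mul, mul_one, card_powersetCard, card_PP] at h1
  have h2 := sum_miss n t ht Z
  have h3 : ∑ M ∈ (PP n).powersetCard t, Z M ≤ (n.choose 2).choose t * b := by
    simp only [Z]
    rw [sum_comm]
    exact hm
  rw [← h2, ← h1] at h3
  refine ⟨?_, ?_⟩
  · have : #{G : SimpleGraph (Fin n) | (ed G).card = n.choose 2 - t}
        = (n.choose 2).choose t := by exact_mod_cast h1
    rw [this]
    exact Nat.choose_pos ht
  set A : Finset (SimpleGraph (Fin n)) := {G | (ed G).card = n.choose 2 - t} with hA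
  set q : SimpleGraph (Fin n) → Prop := fun G => c * 2 ^ (n.choose 2 - t)
      ≤ (#{H : SimpleGraph (Fin n) | H ≤ G ∧ ∀ H' ≤ G, Nonempty (H' ≃g H) → H' = H} : ℝ) with hq
  have h4 : ({G : SimpleGraph (Fin n) | (ed G).card = n.choose 2 - t ∧ q G} : Finset _)
      = {G ∈ A | q G} := by
    rw [hA, filter_filter]
  have h5 := card_filter_add_card_filter_not (s := A) q
  have hZ : ∀ M : Finset (Sym2 (Fin n)), 0 ≤ Z M := fun M => sum_nonneg fun _ _ => by positivity
  have h6 : (#{G ∈ A | ¬ q G} : ℝ) * (1 - c) ≤ ∑ G ∈ A, Z (miss G) := by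
    refine le_trans ?_ (sum_le_sum_of_subset_of_nonneg (filter_subset (fun G => ¬ q G) A)
      (fun _ _ _ => hZ _))
    rw [← nsmul_eq_mul, ← sum_const]
    refine sum_le_sum fun G hG => ?_
    obtain ⟨a1, a2⟩ := mem_filter.1 hG
    have a3 := uniq_ge G
    rw [(mem_filter.1 a1).2] at a3
    simp only [hq, not_le] at a2
    have a4 := a3.trans_lt a2
    rw [mul_comm c] at a4
    have := lt_of_mul_lt_mul_left a4 (by positivity)
    linarith
  have h7 : (#{G ∈ A | q G} : ℝ) + #{G ∈ A | ¬ q G} = A.card := by exact_mod_cast h5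
  have h8 : (#{G ∈ A | ¬ q G} : ℝ) ≤ A.card * b / (1 - c) := by
    rw [le_div_iff₀ (by linarith)]; linarith
  show _ ≤ (#{G : SimpleGraph (Fin n) | (ed G).card = n.choose 2 - t ∧ q G} : ℝ)
  rw [h4, mul_sub, mul_one, ← mul_div_assoc]
  linarith

end Pool.Agent.H.MP_618f8d_co
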